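import Pool.Agent.Lib.MP_fe8b6f_pr.SA3
import Pool.Agent.Lib.MP_fe8b6f_pr.Fin2b
import Pool.Agent.Lib.MP_fe8b6f_pr.WE6
import Pool.Agent.Lib.MP_fe8b6f_pr.Pos2

/-!
The Wasserstein cost of the occupation measure of Brownian motion on the flat torus, divided by
`T ^ (1 - p / (d - 2))`, converges to the interlacement constant, in expectation and in the mean,
for every normalisation `σ` of the motion (`σ = 1` is the standard one; the capacity of the ball
for the motion `σ w` is `σ ^ 2` times the standard capacity).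
All definitions are in `Pool/Agent/Lib/MP_fe8b6f_pr/Stmt.lean`.
-/

open MeasureTheory Filter Topology
open scoped NNReal ENNReal
open Pool.Agent.Lib.MP_fe8b6f_pr

namespace Pool.Agent.Results.MP_fe8b6f_pr.TorusLimit

theorem result (d : ℕ) (p : ℝ) (hdp : InRange d p) :
    ∃ W : Measure (Path d), IsWiener W ∧ (∀ W' : Measure (Path d), IsWiener W' → W' = W) ∧
      ∀ σ : ℝ, 0 < σ → ∃ c : ℝ≥0, 0 < c ∧
        (∀ R : ℝ, √(d : ℝ) ≤ R →
          Tendsto (fun u : ℝ => interCost p (W.map fun w => σ • w) R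
            {x : E d | ∀ i, 0 < x i ∧ x i < 1} (σ ^ 2 * u) /
            ENNReal.ofReal (u ^ (1 - p / ((d : ℝ) - 2)))) atTop (𝓝 (c : ℝ≥0∞))) ∧
        Tendsto (fun T : ℝ => torusCost p (W.map fun w => σ • w) T /
          ENNReal.ofReal (T ^ (1 - p / ((d : ℝ) - 2)))) atTop (𝓝 (c : ℝ≥0∞)) ∧
        ∀ ν : Measure (E d), IsProbabilityMeasure ν →
          Tendsto (fun T : ℝ => ∫⁻ x, ∫⁻ w,
            ((WTor p ((occ x w (Set.Icc 0 T)).map frac) /
                ENNReal.ofReal (T ^ (1 - p / ((d : ℝ) - 2))) - (c : ℝ≥0∞)) +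
              ((c : ℝ≥0∞) - WTor p ((occ x w (Set.Icc 0 T)).map frac) /
                ENNReal.ofReal (T ^ (1 - p / ((d : ℝ) - 2)))))
            ∂(W.map fun w => σ • w) ∂ν) atTop (𝓝 0) := by
  obtain ⟨W, hW⟩ := exists_isWiener d
  have hd : 3 ≤ d := sa1_dim hdp
  have hp : 0 < p := hdp.elim (fun h => h.2.1) fun h => h.2
  obtain ⟨c, h1, h2⟩ := full_limit hdp hW (le_refl √(d : ℝ))
  have hd2 : (0 : ℝ) < (d : ℝ) - 2 := by
    have : (3 : ℝ) ≤ d := by exact_mod_cast hd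
    linarith
  have h3 := h1.comp (tendsto_rpow_atTop hd2)
  have h4 : Tendsto (cL p (PL W) 0) atTop (𝓝 (c : ℝ≥0∞)) := by
    refine h3.congr' ?_
    filter_upwards [eventually_gt_atTop (0 : ℝ)] with L hL
    exact hW.interCost_eq hd hp (le_refl _) hL
  have h5 := tendsto_nhds_unique h4 ((hW.fam hd).tendsto_cL hdp)
  have h6 := (hW.fam hd).cInf_pos hd hp (PL_void W 2)
  rw [← h5] at h6
  have hc : 0 < c := by exact_mod_cast h6
  refine ⟨W, hW, fun W' hW' => hW'.unique hW, fun σ hσ => ?_⟩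
  lift σ to ℝ≥0 using hσ.le
  have hσ' : 0 < σ := by exact_mod_cast hσ
  obtain ⟨k1, k2, k3⟩ := hW.dil_limits hp hσ'.ne' (1 - p / ((d : ℝ) - 2)) (a := c)
  refine ⟨_, ?_, fun R hR => k1 R _ ?_, k2 h2, k3 (hW.mean_limit hdp h5.symm h2)⟩
  · exact mul_pos (mul_pos (inv_pos.2 (pow_pos hσ' 2)) (NNReal.rpow_pos (pow_pos hσ' 2))) hc
  · obtain ⟨c', h1', h2'⟩ := full_limit hdp hW hR
    have hc : (c' : ℝ≥0∞) = c := tendsto_nhds_unique h2' h2
    rw [← hc]
    refine h1'.congr fun u => ?_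
    rw [hW.interCost_congr measurableSet_openCube (measurableSet_cube 0 1) openCube_ae_eq]

end Pool.Agent.Results.MP_fe8b6f_pr.TorusLimit
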